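import Pool.Agent.Helper37.CP.Iface

/-! Checking the conditions `TD2` with boxes. -/

set_option autoImplicit false

namespace Pool.Agent.Helper37.CP

instance : Inhabited FI := ⟨⟨0, 0⟩⟩
instance : Inhabited CI := ⟨⟨default, default⟩⟩

/-- `‖z‖ ≤ x` from enclosures -/
def nle (I : CI) (J : FI) : Bool := decide (0 ≤ J.lo) && decide (I.nsq.hi * SC ≤ J.lo * J.lo)

theorem nle_spec {I : CI} {J : FI} {z : ℂ} {x : ℝ} (hz : I.mem z) (hx : J.mem x) (h : nle I J = true) :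
    ‖z‖ ≤ x := by
  unfold nle at h
  simp only [Bool.and_eq_true, decide_eq_true_eq] at h
  obtain ⟨h1, h2⟩ := h
  have h1' : (0 : ℝ) ≤ (J.lo : ℝ) := by exact_mod_cast h1
  have h2' : (I.nsq.hi : ℝ) * (SC : ℝ) ≤ (J.lo : ℝ) * (J.lo : ℝ) := by exact_mod_cast h2
  have hS := SC_pos
  have h3 := (CI.nsq_mem hz).2
  have h4 := hx.1
  have h5 : (‖z‖ * (SC : ℝ)) ^ 2 ≤ (x * (SC : ℝ)) ^ 2 := by
    calc (‖z‖ * (SC : ℝ)) ^ 2 = (‖z‖ ^ 2 * (SC : ℝ)) * (SC : ℝ) := by ring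
      _ ≤ (I.nsq.hi : ℝ) * (SC : ℝ) := mul_le_mul_of_nonneg_right h3 hS.le
      _ ≤ (J.lo : ℝ) * (J.lo : ℝ) := h2'
      _ ≤ (x * (SC : ℝ)) ^ 2 := by
        rw [pow_two]
        exact mul_le_mul h4 h4 h1' (h1'.trans h4)
  have h6 := abs_le_of_sq_le_sq h5 (h1'.trans h4)
  have h7 := (abs_le.1 h6).2
  exact le_of_mul_le_mul_right h7 hS

/-- separated boxes -/
def sepI (I J : CI) : Bool :=
  decide (I.re.hi < J.re.lo) || decide (J.re.hi < I.re.lo) || decide (I.im.hi < J.im.lo) ||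
    decide (J.im.hi < I.im.lo)

theorem FI_lt {I J : FI} {x y : ℝ} (hx : I.mem x) (hy : J.mem y) (h : I.hi < J.lo) : x < y := by
  have h' : (I.hi : ℝ) < (J.lo : ℝ) := by exact_mod_cast h
  have := hx.2
  have := hy.1
  have h3 : x * (SC : ℝ) < y * (SC : ℝ) := by linarith
  exact lt_of_mul_lt_mul_right h3 SC_pos.le

theorem sepI_spec {I J : CI} {z w : ℂ} (hz : I.mem z) (hw : J.mem w) (h : sepI I J = true) : z ≠ w := by
  unfold sepI at h
  simp only [Bool.or_eq_true, decide_eq_true_eq] at h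
  intro hzw
  subst hzw
  rcases h with ((h | h) | h) | h
  · exact lt_irrefl _ (FI_lt hz.1 hw.1 h)
  · exact lt_irrefl _ (FI_lt hw.1 hz.1 h)
  · exact lt_irrefl _ (FI_lt hz.2 hw.2 h)
  · exact lt_irrefl _ (FI_lt hw.2 hz.2 h)

/-- half of an interval -/
def FI.half (I : FI) : FI := I.mul (FI.rat 1 2)

theorem rat_mem' (n d : ℤ) (hd : 0 < d) {x : ℝ} (hx : x = (n : ℝ) / (d : ℝ)) : (FI.rat n d).mem x := by
  rw [hx]; exact FI.rat_mem n hd

theorem half_mem {I : FI} {x : ℝ} (hx : I.mem x) : I.half.mem (x / 2) := by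
  have : x / 2 = x * (1 / 2) := by ring
  rw [this]
  exact FI.mul_mem hx (rat_mem' 1 2 (by norm_num) (by norm_num))

/-- enclosure of `CRp` -/
def CRpI (s X Y : FI) (p q : CI) : FI :=
  ((q.re.sub p.re).mul (((((FI.rat 1 1).add s).mul (X.add Y)).neg.half).sub (p.im.mul ((FI.rat 1 1).add (X.mul Y))))).sub
    ((q.im.sub p.im).mul (((FI.rat 1 1).sub (s.mul (X.mul Y))).sub (p.re.mul ((FI.rat 1 1).add (X.mul Y)))))

theorem CRpI_mem {s X Y : FI} {p q : CI} {s' X' Y' : ℝ} {p' q' : ℂ} (hs : s.mem s') (hX : X.mem X') (hY : Y.mem Y')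
    (hp : p.mem p') (hq : q.mem q') : (CRpI s X Y p q).mem (CRp s' X' Y' p' q') := by
  unfold CRpI CRp
  refine FI.sub_mem (FI.mul_mem (FI.sub_mem hq.1 hp.1) (FI.sub_mem (half_mem (FI.neg_mem (FI.mul_mem (FI.add_mem one_mem hs)
    (FI.add_mem hX hY)))) (FI.mul_mem hp.2 (FI.add_mem one_mem (FI.mul_mem hX hY)))))
    (FI.mul_mem (FI.sub_mem hq.2 hp.2) (FI.sub_mem (FI.sub_mem one_mem (FI.mul_mem hs (FI.mul_mem hX hY)))
      (FI.mul_mem hp.1 (FI.add_mem one_mem (FI.mul_mem hX hY)))))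

/-- enclosure of `GG` -/
def GGI (s X Y : FI) (v : CI) : FI :=
  (((FI.rat 1 1).sub v.re).add ((X.add Y).mul v.im)).add ((s.add v.re).mul (X.mul Y))

theorem GGI_mem {s X Y : FI} {v : CI} {s' X' Y' : ℝ} {v' : ℂ} (hs : s.mem s') (hX : X.mem X') (hY : Y.mem Y')
    (hv : v.mem v') : (GGI s X Y v).mem (GG s' X' Y' v') := by
  unfold GGI GG
  exact FI.add_mem (FI.add_mem (FI.sub_mem one_mem hv.1) (FI.mul_mem (FI.add_mem hX hY) hv.2))
    (FI.mul_mem (FI.add_mem hs hv.1) (FI.mul_mem hX hY))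

/-- enclosure of `PP` -/
def PPI (s X : FI) : CI :=
  let d := ((FI.rat 1 1).add (X.mul X)).inv
  ⟨((FI.rat 1 1).sub (s.mul (X.mul X))).mul d, ((((FI.rat 1 1).add s).mul X).neg).mul d⟩

theorem PPI_mem {s X : FI} {s' X' : ℝ} (hs : s.mem s') (hX : X.mem X') (h0 : 0 < ((FI.rat 1 1).add (X.mul X)).lo) :
    (PPI s X).mem (PP s' X') := by
  have hd : (((FI.rat 1 1).add (X.mul X)).inv).mem ((1 + X' ^ 2)⁻¹) := by
    have : 1 + X' ^ 2 = 1 + X' * X' := by ring
    rw [this]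
    exact FI.inv_mem (FI.add_mem one_mem (FI.mul_mem hX hX)) h0
  constructor
  · show (((FI.rat 1 1).sub (s.mul (X.mul X))).mul ((FI.rat 1 1).add (X.mul X)).inv).mem ((1 - s' * X' ^ 2) / (1 + X' ^ 2))
    rw [div_eq_mul_inv]
    refine FI.mul_mem ?_ hd
    rw [pow_two]
    exact FI.sub_mem one_mem (FI.mul_mem hs (FI.mul_mem hX hX))
  · show (((((FI.rat 1 1).add s).mul X).neg).mul ((FI.rat 1 1).add (X.mul X)).inv).mem (-((1 + s') * X') / (1 + X' ^ 2))
    rw [div_eq_mul_inv]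
    exact FI.mul_mem (FI.neg_mem (FI.mul_mem (FI.add_mem one_mem hs) hX)) hd

/-- `0` -/
def zI : CI := ⟨⟨0, 0⟩, ⟨0, 0⟩⟩

theorem zI_mem : zI.mem 0 := by
  refine ⟨⟨?_, ?_⟩, ⟨?_, ?_⟩⟩ <;> simp [zI]

/-- `‖q - p‖ ≤ cr p q 0` -/
def cenI (p q : CI) : Bool := nle (q.sub p) (crI p q zI)

theorem cenI_spec {p q : CI} {p' q' : ℂ} (hp : p.mem p') (hq : q.mem q') (h : cenI p q = true) :
    ‖q' - p'‖ ≤ cr p' q' 0 :=
  nle_spec (CI.sub_mem hq hp) (crI_mem hp hq zI_mem) h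

/-- `‖f + S‖ ≤ 1 + S` -/
def cirI (S : FI) (f : CI) : Bool := nle ⟨f.re.add S, f.im⟩ ((FI.rat 1 1).add S)

theorem cirI_spec {S : FI} {f : CI} {R : ℝ} {f' : ℂ} (hS : S.mem (R - 1)) (hf : f.mem f') (h : cirI S f = true) :
    ‖f' - (-((R : ℂ) - 1))‖ ≤ R := by
  have h1 : (⟨f.re.add S, f.im⟩ : CI).mem (f' - (-((R : ℂ) - 1))) := by
    constructor
    · have e : (f' - (-((R : ℂ) - 1))).re = f'.re + (R - 1) := by simp; ring
      rw [e]
      exact FI.add_mem hf.1 hS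
    · have e : (f' - (-((R : ℂ) - 1))).im = f'.im := by simp
      rw [e]
      exact hf.2
  have h2 : ((FI.rat 1 1).add S).mem R := by
    have : R = 1 + (R - 1) := by ring
    rw [this]
    exact FI.add_mem one_mem hS
  exact nle_spec h1 h2 h

/-- `s = 31/25` -/
def sI : FI := FI.rat 31 25
/-- the two ends of the tower -/
def XRI : FI := FI.rat (25 * 3 * 8682970) (56 * 5 * 10000000)
def XLI : FI := FI.rat (-(25 * 2 * 10433832)) (56 * 5 * 10000000)
def XR1I : FI := FI.rat (25 * 2 * 8682970) (56 * 5 * 10000000)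

theorem sI_mem : sI.mem (31 / 25) := rat_mem' 31 25 (by norm_num) (by norm_num)

theorem XRI_mem : XRI.mem XRc := by
  refine rat_mem' _ _ (by norm_num) ?_
  unfold XRc sq
  norm_num

theorem XR1I_mem : XR1I.mem XR1 := by
  refine rat_mem' _ _ (by norm_num) ?_
  unfold XR1 sq
  norm_num

theorem XLI_mem : XLI.mem XLc := by
  refine rat_mem' _ _ (by norm_num) ?_
  unfold XLc sq
  norm_num

def bx (B : List CI) (i : ℕ) : CI := B.getD i default

def chkND (B : List CI) : Bool :=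
  (List.range B.length).all fun i => (List.range i).all fun k => sepI (bx B i) (bx B k)

def chkFF (B : List CI) : Bool :=
  (List.range (B.length - 1)).all fun i => (List.range B.length).all fun k =>
    (k == i || k == i + 1) || decide (0 < (crI (bx B i) (bx B (i + 1)) (bx B k)).lo)

def chkFP (B : List CI) : Bool :=
  (List.range (B.length - 1)).all fun i =>
    decide (0 ≤ (CRpI sI XR1I XR1I (bx B i) (bx B (i + 1))).lo) &&
    decide (0 ≤ (CRpI sI XLI XLI (bx B i) (bx B (i + 1))).lo) &&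
    decide (0 ≤ (CRpI sI XR1I XLI (bx B i) (bx B (i + 1))).lo)

def chkGG (B : List CI) : Bool :=
  (List.range B.length).all fun i =>
    decide (0 < (GGI sI XR1I XR1I (bx B i)).lo) &&
    decide (0 < (GGI sI XLI XLI (bx B i)).lo) &&
    decide (0 < (GGI sI XR1I XLI (bx B i)).lo)

def chkJ1 (B : List CI) : Bool :=
  (List.range (B.length - 1)).all fun i => decide (0 < (crI (bx B (B.length - 1)) (PPI sI XR1I) (bx B i)).lo)

def chkJ2 (B : List CI) : Bool :=
  (List.range B.length).all fun i => (i == 0) || decide (0 < (crI (PPI sI XLI) (bx B 0) (bx B i)).lo)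

def chkCen (B : List CI) (k : ℕ) : Bool :=
  ((List.range k).all fun i => cenI (bx B i) (bx B (i + 1))) && cenI (bx B (k + 3)) (bx B (k + 4))

def chkCir (B : List CI) (k : ℕ) (S : FI) : Bool :=
  (List.range B.length).all fun i => (i == k + 1 || i == k + 2) || cirI S (bx B i)

def chkTD (B : List CI) (k : ℕ) (S : FI) : Bool :=
  decide (B.length = k + 5) && decide (120000000000 ≤ S.lo) && chkND B && chkFF B && chkFP B && chkGG B && chkJ1 B && chkJ2 B &&
    chkCen B k && cenI (bx B (B.length - 1)) (PPI sI XR1I) && cenI (PPI sI XLI) (bx B 0) && chkCir B k S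

theorem PPR_mem : (PPI sI XRI).mem (PP (31 / 25) XRc) := PPI_mem sI_mem XRI_mem (by decide)
theorem PPR1_mem : (PPI sI XR1I).mem (PP (31 / 25) XR1) := PPI_mem sI_mem XR1I_mem (by decide)
theorem PPL_mem : (PPI sI XLI).mem (PP (31 / 25) XLc) := PPI_mem sI_mem XLI_mem (by decide)

theorem cr_self1 (p q : ℂ) : cr p q p = 0 := by unfold cr; ring
theorem cr_self2 (p q : ℂ) : cr p q q = 0 := by unfold cr; ring

theorem td2_of_chk {B : List CI} {F : List ℂ} {k : ℕ} {S : FI} {R : ℝ} (hlen : F.length = k + 5)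
    (hB : ∀ (i : ℕ) (h : i < F.length), (bx B i).mem F[i]) (hS : S.mem (R - 1)) (h : chkTD B k S = true)
    (hc : ∀ (i : ℕ) (h : i + 1 < F.length), k ≤ i → i < k + 3 → ‖F[i + 1] - F[i]‖ ≤ cr F[i] F[i + 1] 0)
    (hr : ∀ (i : ℕ) (h : i < F.length), i = k + 1 ∨ i = k + 2 → ‖F[i] - (-((R : ℂ) - 1))‖ ≤ R) :
    TD2 (31 / 25) XLc XR1 R F := by
  unfold chkTD at h
  simp only [Bool.and_eq_true, decide_eq_true_eq] at h
  obtain ⟨⟨⟨⟨⟨⟨⟨⟨⟨⟨⟨hBl, hSl⟩, h1⟩, h2⟩, h3⟩, h4⟩, h5⟩, h6⟩, h7⟩, h8⟩, h9⟩, h10⟩ := h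
  have hne : F ≠ [] := by
    intro h0
    rw [h0] at hlen
    simp at hlen
  have hFl : F.length = B.length := by omega
  have hlast : F.getLast hne = F[F.length - 1]'(by omega) := List.getLast_eq_getElem hne
  have hhead : F.head hne = F[0]'(by omega) := List.head_eq_getElem hne
  unfold chkND at h1
  unfold chkFF at h2
  unfold chkFP at h3
  unfold chkGG at h4
  unfold chkJ1 at h5
  unfold chkJ2 at h6
  unfold chkCen at h7
  unfold chkCir at h10
  simp only [List.all_eq_true, List.mem_range, Bool.or_eq_true, Bool.and_eq_true, decide_eq_true_eq, beq_iff_eq] at h1 h2 h3 h4 h5 h6 h7 h10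
  refine ⟨by norm_num, ?_, ?_, hne, ?_, ?_, ?_, ?_, ?_, ?_, ?_, ?_, ?_, ?_⟩
  · have : (120000000000 : ℝ) ≤ (S.lo : ℝ) := by exact_mod_cast hSl
    have h2 := hS.1
    unfold SC at h2
    push_cast at h2
    linarith
  · unfold XLc XR1 sq; norm_num
  · rw [List.nodup_iff_injective_getElem]
    intro i j hij
    simp only at hij
    by_contra hne'
    rcases lt_or_gt_of_ne (fun hc => hne' (Fin.ext hc) : (i : ℕ) ≠ (j : ℕ)) with h0 | h0
    · exact sepI_spec (hB j j.2) (hB i i.2) (h1 j (by have := j.2; omega) i h0) hij.symm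
    · exact sepI_spec (hB i i.2) (hB j j.2) (h1 i (by have := i.2; omega) j h0) hij
  · intro e he f hf
    obtain ⟨i, hi, rfl⟩ := mem_pedges.1 he
    obtain ⟨m, hm, rfl⟩ := List.mem_iff_getElem.1 hf
    show 0 ≤ cr F[i] F[i + 1] F[m]
    rcases h2 i (by omega) m (by omega) with (h0 | h0) | h0
    · subst h0; exact (cr_self1 _ _).ge
    · subst h0; exact (cr_self2 _ _).ge
    · exact (FI.pos_of (crI_mem (hB i (by omega)) (hB (i + 1) hi) (hB m hm)) h0).le
  · intro e he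
    obtain ⟨i, hi, rfl⟩ := mem_pedges.1 he
    obtain ⟨⟨g1, g2⟩, g3⟩ := h3 i (by omega)
    have nn : ∀ {I : FI} {x : ℝ}, I.mem x → 0 ≤ I.lo → 0 ≤ x := by
      intro I x hx h0
      have h0' : (0 : ℝ) ≤ (I.lo : ℝ) := by exact_mod_cast h0
      by_contra hc
      push Not at hc
      have := mul_neg_of_neg_of_pos hc SC_pos
      linarith [hx.1]
    exact ⟨nn (CRpI_mem sI_mem XR1I_mem XR1I_mem (hB i (by omega)) (hB (i + 1) hi)) g1,
      nn (CRpI_mem sI_mem XLI_mem XLI_mem (hB i (by omega)) (hB (i + 1) hi)) g2,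
      nn (CRpI_mem sI_mem XR1I_mem XLI_mem (hB i (by omega)) (hB (i + 1) hi)) g3⟩
  · intro v hv
    obtain ⟨m, hm, rfl⟩ := List.mem_iff_getElem.1 hv
    obtain ⟨⟨g1, g2⟩, g3⟩ := h4 m (by omega)
    exact ⟨FI.pos_of (GGI_mem sI_mem XR1I_mem XR1I_mem (hB m hm)) g1,
      FI.pos_of (GGI_mem sI_mem XLI_mem XLI_mem (hB m hm)) g2,
      FI.pos_of (GGI_mem sI_mem XR1I_mem XLI_mem (hB m hm)) g3⟩
  · intro f hf
    obtain ⟨m, hm, rfl⟩ := List.mem_iff_getElem.1 hf
    rw [hlast]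
    by_cases h0 : m = F.length - 1
    · subst h0; exact (cr_self1 _ _).ge
    · have := h5 m (by omega)
      rw [← hFl] at this
      exact (FI.pos_of (crI_mem (hB (F.length - 1) (by omega)) PPR1_mem (hB m hm)) this).le
  · intro f hf
    obtain ⟨m, hm, rfl⟩ := List.mem_iff_getElem.1 hf
    rw [hhead]
    rcases h6 m (by omega) with h0 | h0
    · subst h0; exact (cr_self2 _ _).ge
    · exact (FI.pos_of (crI_mem PPL_mem (hB 0 (by omega)) (hB m hm)) h0).le
  · intro e he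
    obtain ⟨i, hi, rfl⟩ := mem_pedges.1 he
    show ‖F[i + 1] - F[i]‖ ≤ cr F[i] F[i + 1] 0
    rcases Nat.lt_or_ge i k with h0 | h0
    · exact cenI_spec (hB i (by omega)) (hB (i + 1) hi) (h7.1 i h0)
    · rcases Nat.lt_or_ge i (k + 3) with h0' | h0'
      · exact hc i hi h0 h0'
      · have e1 : i = k + 3 := by omega
        subst e1
        exact cenI_spec (hB (k + 3) (by omega)) (hB (k + 3 + 1) hi) h7.2
  · rw [hlast]
    rw [← hFl] at h8
    exact cenI_spec (hB (F.length - 1) (by omega)) PPR1_mem h8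
  · rw [hhead]
    exact cenI_spec PPL_mem (hB 0 (by omega)) h9
  · intro f hf
    obtain ⟨m, hm, rfl⟩ := List.mem_iff_getElem.1 hf
    rcases h10 m (by omega) with h0 | h0
    · exact hr m hm h0
    · exact cirI_spec hS (hB m hm) h0

end Pool.Agent.Helper37.CP
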