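import Pool.Agent.Helper49.CP.Box

/-! `ST_CORNER`: the corner piece. -/

set_option autoImplicit false

namespace Pool.Agent.Helper37.CP

def nx (n i : ℕ) : ℕ := if i + 1 = n then 0 else i + 1

def chkND' (B : List CI) : Bool :=
  (List.range B.length).all fun i => (List.range i).all fun k => sepI (bx B i) (bx B k)

def chkCv (B : List CI) : Bool :=
  (List.range B.length).all fun i => (List.range B.length).all fun k =>
    (k == i || k == nx B.length i) || decide (0 < (crI (bx B i) (bx B (nx B.length i)) (bx B k)).lo)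

/-- `r * ‖q - p‖ ≤ cr p q c` -/
def cenR (r : FI) (c p q : CI) : Bool := nle (CI.smul r (q.sub p)) (crI p q c)

theorem cenR_spec {r : FI} {c p q : CI} {r' : ℝ} {c' p' q' : ℂ} (hr : r.mem r') (hr0 : 0 ≤ r') (hc : c.mem c') (hp : p.mem p')
    (hq : q.mem q') (h : cenR r c p q = true) : r' * ‖q' - p'‖ ≤ cr p' q' c' := by
  have h1 := nle_spec (CI.smul_mem hr (CI.sub_mem hq hp)) (crI_mem hp hq hc) h
  rwa [norm_mul, Complex.norm_real, Real.norm_of_nonneg hr0] at h1

theorem nx_mod {n i : ℕ} (hi : i < n) : nx n i = (i + 1) % n := by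
  unfold nx
  by_cases h : i + 1 = n
  · rw [if_pos h, h, Nat.mod_self]
  · rw [if_neg h, Nat.mod_eq_of_lt (by omega)]

theorem cert_box {B : List CI} {L : List ℂ} {c o : ℂ} {r R γ : ℝ} (hn : 2 ≤ L.length) (hBL : B.length = L.length)
    (hB : ∀ (i : ℕ) (h : i < L.length), (bx B i).mem L[i]) (h1 : chkND' B = true) (h2 : chkCv B = true)
    (hr : 0 < r) (hR : R ≤ γ * r)
    (hc : ∀ (i : ℕ) (h : i < L.length) (h' : nx L.length i < L.length), r * ‖L[nx L.length i] - L[i]‖ ≤ cr L[i] L[nx L.length i] c)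
    (ho : ∀ v ∈ L, ‖v - o‖ ≤ R) : Cert γ L := by
  have hne : L ≠ [] := by
    intro h0
    rw [h0] at hn
    simp at hn
  unfold chkND' at h1
  unfold chkCv at h2
  simp only [List.all_eq_true, List.mem_range, Bool.or_eq_true, decide_eq_true_eq, beq_iff_eq] at h1 h2
  have hnd : L.Nodup := by
    rw [List.nodup_iff_injective_getElem]
    intro i j hij
    simp only at hij
    by_contra hne'
    rcases lt_or_gt_of_ne (fun hc => hne' (Fin.ext hc) : (i : ℕ) ≠ (j : ℕ)) with h0 | h0
    · exact sepI_spec (hB j j.2) (hB i i.2) (h1 j (by have := j.2; omega) i h0) hij.symm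
    · exact sepI_spec (hB i i.2) (hB j j.2) (h1 i (by have := i.2; omega) j h0) hij
  have hcen : ∀ e ∈ edges L, r * ‖e.2 - e.1‖ ≤ cr e.1 e.2 c := by
    intro e he
    rw [mem_edges_iff] at he
    obtain ⟨i, hi, rfl⟩ := he
    have hm : (i + 1) % L.length < L.length := Nat.mod_lt _ (by omega)
    have := hc i hi (by rw [nx_mod hi]; exact hm)
    simp only [nx_mod hi] at this
    exact this
  refine ⟨⟨hnd, ?_, ⟨c, ?_⟩, hne⟩, c, o, r, R, hr, hR, hcen, ho⟩
  · intro e he v hv
    rw [mem_edges_iff] at he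
    obtain ⟨i, hi, rfl⟩ := he
    obtain ⟨m, hm, rfl⟩ := List.mem_iff_getElem.1 hv
    have hm' : (i + 1) % L.length < L.length := Nat.mod_lt _ (by omega)
    show 0 ≤ cr L[i] L[(i + 1) % L.length] L[m]
    have := h2 i (by omega) m (by omega)
    rw [hBL, nx_mod hi] at this
    rcases this with (h0 | h0) | h0
    · subst h0; exact (cr_self1 _ _).ge
    · subst h0; exact (cr_self2 _ _).ge
    · exact (FI.pos_of (crI_mem (hB i hi) (hB _ hm') (hB m hm)) h0).le
  · intro e he
    have h3 := hcen e he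
    rw [mem_edges_iff] at he
    obtain ⟨i, hi, rfl⟩ := he
    refine lt_of_lt_of_le (mul_pos hr ?_) h3
    rw [norm_pos_iff, sub_ne_zero]
    intro heq
    have h4 := (hnd.getElem_inj_iff).1 heq
    by_cases h5 : i + 1 < L.length
    · rw [Nat.mod_eq_of_lt h5] at h4
      omega
    · have h6 : i + 1 = L.length := by omega
      rw [h6, Nat.mod_self] at h4
      omega

/-- box of `t` -/
def tI : FI := ⟨822400000000, 822600000000⟩
/-- box of `-2.817 + .364 (1/t - t)/2` -/
def wI : FI := (FI.rat (-2817) 1000).add ((FI.rat 91 250).mul ((tI.inv).sub tI).half)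
def rI' : FI := (FI.rat 483 1000).mul ((FI.rat 1 1).add tI).inv
def cI' : CI := ⟨(FI.rat (-33) 10).add rI', (FI.rat (-33) 10).add rI'⟩

def cornB : List CI :=
  [⟨FI.rat (-33) 10, FI.rat (-2817) 1000⟩, ⟨FI.rat (-33) 10, FI.rat (-33) 10⟩, ⟨FI.rat (-2817) 1000, FI.rat (-33) 10⟩,
    ⟨wI, FI.rat (-2936) 1000⟩,
    ⟨FI.rat (-27714343) 10000000, FI.rat (-28759993) 10000000⟩, ⟨FI.rat (-28181135) 10000000, FI.rat (-28266135) 10000000⟩,
    ⟨FI.rat (-28737645) 10000000, FI.rat (-27749920) 10000000⟩,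
    ⟨FI.rat (-2936) 1000, wI⟩]

def oI' : CI := ⟨FI.rat (-30585) 10000, FI.rat (-30585) 10000⟩
/-- lower bound of `R` -/
def RI' : FI := ⟨341532575313, 341532575314⟩

theorem chkA : chkND' cornB = true := by decide +kernel
theorem chkB : chkCv cornB = true := by decide +kernel
theorem chkC : (cenR rI' cI' (bx cornB 3) (bx cornB 4) && cenR rI' cI' (bx cornB 4) (bx cornB 5) &&
  cenR rI' cI' (bx cornB 5) (bx cornB 6) && cenR rI' cI' (bx cornB 6) (bx cornB 7)) = true := by decide +kernel
theorem chkD : ((List.range 8).all fun i => i == 0 || i == 1 || i == 2 || nle ((bx cornB i).sub oI') RI') = true := by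
  decide +kernel

theorem st_corner : ST_CORNER := by
  intro t ht1 ht2
  have ht0 : 0 < t := by norm_num at ht1; linarith
  have htI : tI.mem t := by
    constructor
    · show ((822400000000 : ℤ) : ℝ) ≤ _
      unfold SC; norm_num at ht1 ⊢; linarith
    · show _ ≤ ((822600000000 : ℤ) : ℝ)
      unfold SC; norm_num at ht2 ⊢; linarith
  have hw : wI.mem (-2817 / 1000 + 91 / 250 * ((1 / t - t) / 2)) := by
    refine FI.add_mem (rat_mem' _ _ (by norm_num) (by norm_num)) (FI.mul_mem (rat_mem' _ _ (by norm_num) (by norm_num))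
      (half_mem (FI.sub_mem ?_ htI)))
    rw [one_div]
    exact FI.inv_mem htI (by decide)
  have hr : rI'.mem (483 / 1000 / (1 + t)) := by
    rw [div_eq_mul_inv (483 / 1000 : ℝ)]
    exact FI.mul_mem (rat_mem' _ _ (by norm_num) (by norm_num)) (FI.inv_mem (FI.add_mem one_mem htI) (by decide))
  set r : ℝ := 483 / 1000 / (1 + t) with hrdef
  have h1t : 0 < 1 + t := by linarith
  have hr0 : 0 < r := by positivity
  have hrt : r * (1 + t) = 483 / 1000 := by rw [hrdef]; field_simp
  set c : ℂ := ⟨-33 / 10 + r, -33 / 10 + r⟩ with hcdef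
  have hc : cI'.mem c := ⟨FI.add_mem (rat_mem' _ _ (by norm_num) (by norm_num)) hr,
    FI.add_mem (rat_mem' _ _ (by norm_num) (by norm_num)) hr⟩
  have hB : ∀ (i : ℕ) (h : i < (cornerL t).length), (bx cornB i).mem (cornerL t)[i] := by
    intro i hi
    have hi' : i < 8 := hi
    interval_cases i
    · exact ⟨rat_mem' _ _ (by norm_num) (by norm_num [cornerL]), rat_mem' _ _ (by norm_num) (by norm_num [cornerL])⟩
    · exact ⟨rat_mem' _ _ (by norm_num) (by norm_num [cornerL]), rat_mem' _ _ (by norm_num) (by norm_num [cornerL])⟩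
    · exact ⟨rat_mem' _ _ (by norm_num) (by norm_num [cornerL]), rat_mem' _ _ (by norm_num) (by norm_num [cornerL])⟩
    · exact ⟨hw, rat_mem' _ _ (by norm_num) (by norm_num [cornerL])⟩
    · exact ⟨rat_mem' _ _ (by norm_num) (by norm_num [cornerL]), rat_mem' _ _ (by norm_num) (by norm_num [cornerL])⟩
    · exact ⟨rat_mem' _ _ (by norm_num) (by norm_num [cornerL]), rat_mem' _ _ (by norm_num) (by norm_num [cornerL])⟩
    · exact ⟨rat_mem' _ _ (by norm_num) (by norm_num [cornerL]), rat_mem' _ _ (by norm_num) (by norm_num [cornerL])⟩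
    · exact ⟨rat_mem' _ _ (by norm_num) (by norm_num [cornerL]), hw⟩
  have s0 : (0 : ℝ) < √2 := by positivity
  have hs : √2 * √2 = 2 := Real.mul_self_sqrt (by norm_num)
  have hchkC := chkC
  simp only [Bool.and_eq_true] at hchkC
  obtain ⟨⟨⟨k3, k4⟩, k5⟩, k6⟩ := hchkC
  have hchkD := chkD
  simp only [List.all_eq_true, List.mem_range, Bool.or_eq_true, beq_iff_eq] at hchkD
  refine cert_box (B := cornB) (c := c) (o := ⟨-30585 / 10000, -30585 / 10000⟩) (r := r) (R := 483 / 1000 / √2)
    (by show 2 ≤ 8; norm_num) rfl hB chkA chkB hr0 ?_ ?_ ?_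
  · have e : (1 + t) / √2 * r = 483 / 1000 / √2 := by rw [← hrt]; ring
    rw [e]
  · intro i hi hi2
    have hi' : i < 8 := hi
    have wl : ∀ {p q : ℂ} {L : ℝ}, 0 ≤ L → (q.re - p.re) ^ 2 + (q.im - p.im) ^ 2 = L ^ 2 → cr p q c = r * L →
        r * ‖q - p‖ ≤ cr p q c := by
      intro p q L hL h h2
      rw [h2]
      apply mul_le_mul_of_nonneg_left _ hr0.le
      apply le_of_sq_le_sq _ hL
      rw [normSq', Complex.sub_re, Complex.sub_im, h]
    have hti : 0 < 1 / t := by positivity
    interval_cases i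
    · show r * ‖(⟨-33 / 10, -33 / 10⟩ : ℂ) - ⟨-33 / 10, -2817 / 1000⟩‖ ≤ cr ⟨-33 / 10, -2817 / 1000⟩ ⟨-33 / 10, -33 / 10⟩ c
      refine wl (L := 483 / 1000) (by norm_num) (by norm_num) ?_
      rw [hcdef]; unfold cr; simp only; ring
    · show r * ‖(⟨-2817 / 1000, -33 / 10⟩ : ℂ) - ⟨-33 / 10, -33 / 10⟩‖ ≤ cr ⟨-33 / 10, -33 / 10⟩ ⟨-2817 / 1000, -33 / 10⟩ c
      refine wl (L := 483 / 1000) (by norm_num) (by norm_num) ?_
      rw [hcdef]; unfold cr; simp only; ring
    · show r * ‖(⟨-2817 / 1000 + 91 / 250 * ((1 / t - t) / 2), -2936 / 1000⟩ : ℂ) - ⟨-2817 / 1000, -33 / 10⟩‖ ≤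
        cr ⟨-2817 / 1000, -33 / 10⟩ ⟨-2817 / 1000 + 91 / 250 * ((1 / t - t) / 2), -2936 / 1000⟩ c
      refine wl (L := 91 / 250 * ((1 / t + t) / 2)) (by positivity) ?_ ?_
      · simp only
        field_simp
        ring
      · rw [hcdef]; unfold cr; simp only
        have : t * (1 / t) = 1 := by field_simp
        linear_combination (-91 / 250) * hrt
    · exact cenR_spec hr hr0.le hc (hB 3 (by show 3 < 8; norm_num)) (hB 4 (by show 4 < 8; norm_num)) k3
    · exact cenR_spec hr hr0.le hc (hB 4 (by show 4 < 8; norm_num)) (hB 5 (by show 5 < 8; norm_num)) k4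
    · exact cenR_spec hr hr0.le hc (hB 5 (by show 5 < 8; norm_num)) (hB 6 (by show 6 < 8; norm_num)) k5
    · exact cenR_spec hr hr0.le hc (hB 6 (by show 6 < 8; norm_num)) (hB 7 (by show 7 < 8; norm_num)) k6
    · show r * ‖(⟨-33 / 10, -2817 / 1000⟩ : ℂ) - ⟨-2936 / 1000, -2817 / 1000 + 91 / 250 * ((1 / t - t) / 2)⟩‖ ≤
        cr ⟨-2936 / 1000, -2817 / 1000 + 91 / 250 * ((1 / t - t) / 2)⟩ ⟨-33 / 10, -2817 / 1000⟩ c
      refine wl (L := 91 / 250 * ((1 / t + t) / 2)) (by positivity) ?_ ?_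
      · simp only
        field_simp
        ring
      · rw [hcdef]; unfold cr; simp only
        have : t * (1 / t) = 1 := by field_simp
        linear_combination (-91 / 250) * hrt
  · intro v hv
    obtain ⟨i, hi, rfl⟩ := List.mem_iff_getElem.1 hv
    have hi' : i < 8 := hi
    have hR : RI'.mem (483 / 1000 / √2) := by
      have e : 483 / 1000 / √2 = 483 / 2000 * √2 := by
        rw [div_eq_iff s0.ne']
        linear_combination (-483 / 2000) * hs
      rw [e]
      have s1 : (1.41421356237309 : ℝ) < √2 := by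
        rw [Real.lt_sqrt (by norm_num)]
        norm_num
      have s2 : √2 < (1.41421356237310 : ℝ) := by
        rw [Real.sqrt_lt' (by norm_num)]
        norm_num
      constructor
      · show ((341532575313 : ℤ) : ℝ) ≤ _
        unfold SC; norm_num at s1 ⊢; linarith
      · show _ ≤ ((341532575314 : ℤ) : ℝ)
        unfold SC; norm_num at s2 ⊢; linarith
    have ho : oI'.mem (⟨-30585 / 10000, -30585 / 10000⟩ : ℂ) :=
      ⟨rat_mem' _ _ (by norm_num) (by norm_num), rat_mem' _ _ (by norm_num) (by norm_num)⟩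
    have ex : ∀ {v : ℂ}, (v.re + 30585 / 10000) ^ 2 + (v.im + 30585 / 10000) ^ 2 = 2 * (2415 / 10000) ^ 2 →
        ‖v - ⟨-30585 / 10000, -30585 / 10000⟩‖ ≤ 483 / 1000 / √2 := by
      intro v h
      apply le_of_sq_le_sq _ (by positivity)
      rw [normSq', Complex.sub_re, Complex.sub_im, div_pow, Real.sq_sqrt (by norm_num)]
      simp only
      have e1 : v.re - -30585 / 10000 = v.re + 30585 / 10000 := by ring
      have e2 : v.im - -30585 / 10000 = v.im + 30585 / 10000 := by ring
      rw [e1, e2, h]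
      norm_num
    rcases hchkD i hi' with ((h0 | h0) | h0) | h0
    · subst h0
      exact ex (by simp only [cornerL, List.getElem_cons_zero]; norm_num)
    · subst h0
      exact ex (by simp only [cornerL, List.getElem_cons_succ, List.getElem_cons_zero]; norm_num)
    · subst h0
      exact ex (by simp only [cornerL, List.getElem_cons_succ, List.getElem_cons_zero]; norm_num)
    · exact nle_spec (CI.sub_mem (hB i hi) ho) hR h0

end Pool.Agent.Helper37.CP
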