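import Pool.Agent.Helper37.CP.Iface

/-! `ST_B` and `ST_FACT` (interface of `MP_ca50fe_co`). -/

set_option autoImplicit false

namespace Pool.Agent.Helper37.CP

theorem frS_inv {s t : ℝ} (hs : 0 < s) (ht : 0 < t) :
    1 + frS (1 / s) t = 1 / 2 + (1 / (s * t) + s * t + t / s) / 4 := by
  have h1 := hs.ne'
  have h2 := ht.ne'
  unfold frS
  field_simp
  ring

/-- along the chain (`t_j - b = (t_{j-1} - b)/8`) the special pieces are not worse than the critical one. -/
theorem fact1 {b x : ℝ} (h1 : 82247 / 100000 ≤ b) (h2 : b ≤ 82248 / 100000) (hx : 0 ≤ x) (hx' : x ≤ 12 / 1000) :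
    1 + frS (1 / (b + x / 8)) (b + x) ≤ gb b := by
  have hb : 0 < b := by linarith
  have hs : 0 < b + x / 8 := by linarith
  have ht : 0 < b + x := by linarith
  rw [frS_inv hs ht]
  have b2l : b ^ 2 ≤ 676474 / 1000000 := by nlinarith
  have b2g : 676456 / 1000000 ≤ b ^ 2 := by nlinarith
  have b3l : b ^ 3 ≤ 556391 / 1000000 := by nlinarith
  have b5l : b ^ 5 ≤ 376385 / 1000000 := by
    have : b ^ 5 = b ^ 2 * b ^ 3 := by ring
    rw [this]
    nlinarith [pow_pos hb 2, pow_pos hb 3]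
  have b4l : b ^ 4 ≤ 457618 / 1000000 := by
    have : b ^ 4 = b ^ 2 * b ^ 2 := by ring
    rw [this]
    nlinarith [pow_pos hb 2, pow_pos hb 3]
  have b4g : 457592 / 1000000 ≤ b ^ 4 := by
    have : b ^ 4 = b ^ 2 * b ^ 2 := by ring
    rw [this]
    nlinarith [pow_pos hb 2, pow_pos hb 3]
  have g0 : (15 : ℝ) / 1000 ≤ 9 * b / 8 - 7 * b ^ 3 / 8 - 9 * b ^ 5 / 8 := by linarith
  have g1 : -(1105 : ℝ) / 1000 ≤ (1 + b ^ 2 + b ^ 4) / 8 - b ^ 2 * (81 / 64 * b ^ 2 + b ^ 2 / 4 + 1) := by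
    have : b ^ 2 * (81 / 64 * b ^ 2 + b ^ 2 / 4 + 1) = 97 / 64 * b ^ 4 + b ^ 2 := by ring
    rw [this]; linarith
  have G : 0 ≤ (9 * b / 8 - 7 * b ^ 3 / 8 - 9 * b ^ 5 / 8)
      + x * ((1 + b ^ 2 + b ^ 4) / 8 - b ^ 2 * (81 / 64 * b ^ 2 + b ^ 2 / 4 + 1)) - x ^ 2 * (9 / 32 * b ^ 3) - x ^ 3 * (b ^ 2 / 64) := by
    have t1 : -(1105 : ℝ) / 1000 * x ≤ x * ((1 + b ^ 2 + b ^ 4) / 8 - b ^ 2 * (81 / 64 * b ^ 2 + b ^ 2 / 4 + 1)) := by
      rw [mul_comm]; exact mul_le_mul_of_nonneg_left g1 hx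
    have x2 : x ^ 2 ≤ 144 / 1000000 := by nlinarith
    have x3 : x ^ 3 ≤ 2 / 1000000 := by nlinarith [pow_nonneg hx 2]
    have t2 : x ^ 2 * (9 / 32 * b ^ 3) ≤ 144 / 1000000 * (9 / 32 * (556391 / 1000000)) := by
      apply mul_le_mul x2 (by linarith) (by positivity) (by norm_num)
    have t3 : x ^ 3 * (b ^ 2 / 64) ≤ 2 / 1000000 * (676474 / 1000000 / 64) := by
      apply mul_le_mul x3 (by linarith) (by positivity) (by norm_num)
    linarith
  have F : b ^ 2 * (1 + ((b + x / 8) * (b + x)) ^ 2 + (b + x) ^ 2) ≤ (b + x / 8) * (b + x) * (1 + b ^ 2 + b ^ 4) := by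
    have e : (b + x / 8) * (b + x) * (1 + b ^ 2 + b ^ 4) - b ^ 2 * (1 + ((b + x / 8) * (b + x)) ^ 2 + (b + x) ^ 2)
      = x * ((9 * b / 8 - 7 * b ^ 3 / 8 - 9 * b ^ 5 / 8)
      + x * ((1 + b ^ 2 + b ^ 4) / 8 - b ^ 2 * (81 / 64 * b ^ 2 + b ^ 2 / 4 + 1)) - x ^ 2 * (9 / 32 * b ^ 3) - x ^ 3 * (b ^ 2 / 64)) := by
      ring
    have := mul_nonneg hx G
    linarith
  have k : 1 / ((b + x / 8) * (b + x)) + (b + x / 8) * (b + x) + (b + x) / (b + x / 8) ≤ 1 / (b * b) + b * b + b / b := by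
    have e1 : 1 / ((b + x / 8) * (b + x)) + (b + x / 8) * (b + x) + (b + x) / (b + x / 8)
        = (1 + ((b + x / 8) * (b + x)) ^ 2 + (b + x) ^ 2) / ((b + x / 8) * (b + x)) := by
      field_simp
    have e2 : 1 / (b * b) + b * b + b / b = (1 + b ^ 2 + b ^ 4) / b ^ 2 := by
      field_simp
      ring
    rw [e1, e2, div_le_div_iff₀ (by positivity) (by positivity)]
    linarith
  have k2 : gb b = 1 / 2 + (1 / (b * b) + b * b + b / b) / 4 := by
    unfold gb
    field_simp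
    ring
  rw [k2]
  linarith

/-- the first piece `P_0`: `t_{-1} = 7/8`, `t_0 = b + 12/1000`. -/
theorem fact0 {b : ℝ} (h1 : 82247 / 100000 ≤ b) (h2 : b ≤ 82248 / 100000) :
    1 + frS (1 / (b + 12 / 1000)) (7 / 8) ≤ 12871 / 10000 := by
  have hs : 0 < b + 12 / 1000 := by linarith
  rw [frS_inv hs (by norm_num)]
  have k1 : 1 / ((b + 12 / 1000) * (7 / 8)) ≤ 1 / (83447 / 100000 * (7 / 8)) := by
    apply one_div_le_one_div_of_le (by norm_num)
    linarith
  have k2 : (7 / 8 : ℝ) / (b + 12 / 1000) ≤ (7 / 8) / (83447 / 100000) := by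
    apply div_le_div_of_nonneg_left (by norm_num) (by norm_num)
    linarith
  norm_num at k1 k2 ⊢
  linarith

theorem gb_gt {b : ℝ} (h1 : 82247 / 100000 ≤ b) (h2 : b ≤ 82248 / 100000) : 12886 / 10000 ≤ gb b := by
  have hb : 0 < b := by linarith
  have k1 : 1 / (82248 / 100000) ≤ 1 / b := one_div_le_one_div_of_le hb h2
  have k2 : (1 / (82248 / 100000 : ℝ)) ^ 2 ≤ (1 / b) ^ 2 := pow_le_pow_left₀ (by norm_num) k1 2
  have k3 : (82247 / 100000 : ℝ) ^ 2 ≤ b ^ 2 := pow_le_pow_left₀ (by norm_num) h1 2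
  have k4 : (1 / (82248 / 100000 : ℝ)) ^ 2 = 156250000 / 105698961 := by norm_num
  have k5 : (82247 / 100000 : ℝ) ^ 2 = 6764569009 / 10000000000 := by norm_num
  rw [k4] at k2
  rw [k5] at k3
  unfold gb
  linarith

theorem st_fact : ST_FACT := by
  intro b hb j
  have h1 : 82247 / 100000 ≤ b := by have := hb.lo; norm_num at this ⊢; linarith
  have h2 : b ≤ 82248 / 100000 := by have := hb.hi; norm_num at this ⊢; linarith
  cases j with
  | zero =>
    have e0 : tt b ((0 : ℕ) : ℤ) = b + 12 / 1000 := by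
      unfold tt
      norm_num
    have e1 : tt b (((0 : ℕ) : ℤ) - 1) = 7 / 8 := by
      unfold tt
      norm_num
    rw [e0, e1]
    have := fact0 h1 h2
    have := gb_gt h1 h2
    linarith
  | succ j =>
    have e1 : tt b (((j + 1 : ℕ) : ℤ) - 1) = b + 3 / 250 * (1 / 8) ^ j := by
      have : (((j + 1 : ℕ) : ℤ) - 1) = ((j : ℕ) : ℤ) := by push_cast; ring
      rw [this]
      unfold tt
      rw [if_pos (by positivity), zpow_natCast]
    have e0 : tt b ((j + 1 : ℕ) : ℤ) = b + 3 / 250 * (1 / 8) ^ j / 8 := by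
      unfold tt
      rw [if_pos (by positivity), zpow_natCast, pow_succ]
      ring
    rw [e0, e1]
    apply fact1 h1 h2 (by positivity)
    have : ((1 : ℝ) / 8) ^ j ≤ 1 := pow_le_one₀ (by norm_num) (by norm_num)
    linarith

theorem sqrt2_bounds : (1.41421356237309 : ℝ) < √2 ∧ √2 < (1.41421356237310 : ℝ) := by
  constructor
  · rw [Real.lt_sqrt (by norm_num)]
    norm_num
  · rw [Real.sqrt_lt' (by norm_num)]
    norm_num

theorem st_b : ST_B := by
  obtain ⟨s1, s2⟩ := sqrt2_bounds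
  have s0 : (0 : ℝ) < √2 := by positivity
  have hs : √2 * √2 = 2 := Real.mul_self_sqrt (by norm_num)
  have e : ∀ b : ℝ, (1 + b) / √2 = (1 + b) * √2 / 2 := by
    intro b
    rw [div_eq_div_iff s0.ne' (by norm_num)]
    linear_combination (-(1 + b)) * hs
  have hcont : ContinuousOn (fun b : ℝ => (1 + b) / √2 - gb b) (Set.Icc 0.822475043596 0.822475043597) := by
    unfold gb
    apply ContinuousOn.sub
    · fun_prop
    · apply ContinuousOn.add continuousOn_const
      apply ContinuousOn.div_const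
      apply ContinuousOn.add (by fun_prop)
      apply ContinuousOn.pow
      apply ContinuousOn.div continuousOn_const continuousOn_id
      intro x hx
      have := hx.1
      simp only [id]
      norm_num at this
      intro h0
      rw [h0] at this
      norm_num at this
  have hlo : (1 + (0.822475043596 : ℝ)) / √2 - gb 0.822475043596 < 0 := by
    rw [e]
    unfold gb
    have : (1 + (0.822475043596 : ℝ)) * √2 / 2 ≤ (1 + 0.822475043596) * 1.41421356237310 / 2 := by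
      have := mul_le_mul_of_nonneg_left s2.le (show (0:ℝ) ≤ 1 + 0.822475043596 by norm_num)
      linarith
    have h2 : (1 + (0.822475043596:ℝ)) * 1.41421356237310 / 2 < 3 / 4 + ((0.822475043596:ℝ) ^ 2 + (1 / 0.822475043596) ^ 2) / 4 := by norm_num
    linarith
  have hhi : 0 < (1 + (0.822475043597 : ℝ)) / √2 - gb 0.822475043597 := by
    rw [e]
    unfold gb
    have : (1 + 0.822475043597) * 1.41421356237309 / 2 ≤ (1 + (0.822475043597 : ℝ)) * √2 / 2 := by
      have := mul_le_mul_of_nonneg_left s1.le (show (0:ℝ) ≤ 1 + 0.822475043597 by norm_num)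
      linarith
    have h2 : 3 / 4 + ((0.822475043597:ℝ) ^ 2 + (1 / 0.822475043597) ^ 2) / 4 < (1 + (0.822475043597:ℝ)) * 1.41421356237309 / 2 := by norm_num
    linarith
  have hiv := intermediate_value_Icc (by norm_num : (0.822475043596 : ℝ) ≤ 0.822475043597) hcont
  obtain ⟨b, ⟨hb1, hb2⟩, hb3⟩ := hiv ⟨hlo.le, hhi.le⟩
  simp only at hb3
  refine ⟨b, ?_, ?_, by linarith⟩
  · rcases lt_or_eq_of_le hb1 with h | h
    · exact h
    · exfalso; rw [← h] at hb3; linarith
  · rcases lt_or_eq_of_le hb2 with h | h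
    · exact h
    · exfalso; rw [h] at hb3; linarith

end Pool.Agent.Helper37.CP
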