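import Pool.Agent.Helper49.CP.Spec

/-! `ST_SP2`: the special pieces of all levels. -/

set_option autoImplicit false

namespace Pool.Agent.Helper37.CP

/-- box of `b + [lo, hi] * 10^-12` -/
def tB (lo hi : ℤ) : FI := ⟨822475043596 + lo, 822475043597 + hi⟩

theorem tB_mem {b x : ℝ} (hb : IsB b) {lo hi : ℤ} (h1 : (lo : ℝ) ≤ x * (SC : ℝ)) (h2 : x * (SC : ℝ) ≤ (hi : ℝ)) :
    (tB lo hi).mem (b + x) := by
  have l := hb.lo
  have u := hb.hi
  have e : ((SC : ℤ) : ℝ) = 1000000000000 := by unfold SC; norm_num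
  constructor
  · show ((822475043596 + lo : ℤ) : ℝ) ≤ _
    push_cast
    rw [add_mul]
    have : (822475043596 : ℝ) ≤ b * (SC : ℝ) := by rw [e]; norm_num at l ⊢; linarith
    linarith
  · show _ ≤ ((822475043597 + hi : ℤ) : ℝ)
    push_cast
    rw [add_mul]
    have : b * (SC : ℝ) ≤ (822475043597 : ℝ) := by rw [e]; norm_num at u ⊢; linarith
    linarith

theorem tt_nat (b : ℝ) (j : ℕ) : tt b (j : ℤ) = b + 3 / 250 * (1 / 8) ^ j := by
  unfold tt
  rw [if_pos (by positivity), zpow_natCast]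

theorem tt_box {b : ℝ} (hb : IsB b) (j : ℕ) {lo hi : ℤ} (h1 : (lo : ℝ) ≤ 12000000000 * (1 / 8) ^ j)
    (h2 : 12000000000 * (1 / 8) ^ j ≤ (hi : ℝ)) : (tB lo hi).mem (tt b (j : ℤ)) := by
  rw [tt_nat]
  have e : ((SC : ℤ) : ℝ) = 1000000000000 := by unfold SC; norm_num
  apply tB_mem hb
  · rw [e]; linarith
  · rw [e]; linarith

def h35 : FI := FI.rat 7 20
def h36 : FI := FI.rat 91 250

theorem h36_mem {j : ℤ} (h : j ≠ 0) : h36.mem (hh j) := by
  unfold hh
  rw [if_neg h]
  exact rat_mem' 91 250 (by norm_num) (by norm_num)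

theorem h35_mem : h35.mem (hh 0) := by
  unfold hh
  rw [if_pos rfl]
  exact rat_mem' 7 20 (by norm_num) (by norm_num)

def sp0 : List Nm := [.N (-7688842) 3911060 0, .N (-8084905) 3920133 0, .N (-8576092) 3854653 0]
def sp1 : List Nm := [.N (-12462912) 6547182 1, .N (-13099834) 6613401 1, .N (-13830013) 6577419 1,
      .N (-14570591) 6500338 1]
def sp2 : List Nm := [.N (-20529410) 10921997 2, .N (-21676419) 10913990 2, .N (-23036948) 10869107 2,
      .N (-24283774) 10802416 2]
def sp3 : List Nm := [.N (-34214461) 18218877 3, .N (-36118018) 18195362 3, .N (-38392907) 18116169 3,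
      .N (-40467240) 18002384 3]
def sp4 : List Nm := [.N (-57028874) 30369534 4, .N (-60192212) 30325798 4, .N (-64001702) 30196888 4,
      .N (-8741779) 3889424 0]
def sp5 : List Nm := [.N (-7393636) 3936560 0, .N (-7805060) 3930654 0, .N (-8290786) 3913962 0,
      .N (-8741779) 3889424 0]

theorem chk0 : chkAll sp0 (tB 12000000000 12000000000) (FI.rat 7 8) h35 h36 = true := by decide +kernel
theorem chk1 : chkAll sp1 (tB 1500000000 1500000000) (tB 12000000000 12000000000) h36 h35 = true := by decide +kernel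
theorem chk2 : chkAll sp2 (tB 187500000 187500000) (tB 1500000000 1500000000) h36 h36 = true := by decide +kernel
theorem chk3 : chkAll sp3 (tB 23437500 23437500) (tB 187500000 187500000) h36 h36 = true := by decide +kernel
theorem chk4 : chkAll sp4 (tB 2929687 2929688) (tB 23437500 23437500) h36 h36 = true := by decide +kernel
theorem chk5 : chkAll sp5 (tB 0 366211) (tB 0 2929688) h36 h36 = true := by decide +kernel

theorem st_sp2 : ST_SP2 := by
  intro b hb j r Xs hr hr1 hX
  match j with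
  | 0 =>
    have h0 : ((0 : ℕ) : ℤ) - 1 ≠ 0 := by norm_num
    have e1 : tt b (((0 : ℕ) : ℤ) - 1) = 7 / 8 := by unfold tt; norm_num
    have ht1 : (FI.rat 7 8).mem (tt b (((0 : ℕ) : ℤ) - 1)) := by
      rw [e1]; exact rat_mem' 7 8 (by norm_num) (by norm_num)
    exact cert_level (tt_box hb 0 (by norm_num) (by norm_num)) ht1 h35_mem (h36_mem h0) chk0 hr hr1 hX
  | 1 =>
    have e : ((1 : ℕ) : ℤ) - 1 = ((0 : ℕ) : ℤ) := by norm_num
    have ht1 : (tB 12000000000 12000000000).mem (tt b (((1 : ℕ) : ℤ) - 1)) := by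
      rw [e]; exact tt_box hb 0 (by norm_num) (by norm_num)
    have hh1 : h35.mem (hh (((1 : ℕ) : ℤ) - 1)) := by rw [e]; exact h35_mem
    exact cert_level (tt_box hb 1 (by norm_num) (by norm_num)) ht1 (h36_mem (by norm_num)) hh1 chk1 hr hr1 hX
  | 2 =>
    have e : ((2 : ℕ) : ℤ) - 1 = ((1 : ℕ) : ℤ) := by norm_num
    have ht1 : (tB 1500000000 1500000000).mem (tt b (((2 : ℕ) : ℤ) - 1)) := by
      rw [e]; exact tt_box hb 1 (by norm_num) (by norm_num)
    exact cert_level (tt_box hb 2 (by norm_num) (by norm_num)) ht1 (h36_mem (by norm_num)) (h36_mem (by norm_num)) chk2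
      hr hr1 hX
  | 3 =>
    have e : ((3 : ℕ) : ℤ) - 1 = ((2 : ℕ) : ℤ) := by norm_num
    have ht1 : (tB 187500000 187500000).mem (tt b (((3 : ℕ) : ℤ) - 1)) := by
      rw [e]; exact tt_box hb 2 (by norm_num) (by norm_num)
    exact cert_level (tt_box hb 3 (by norm_num) (by norm_num)) ht1 (h36_mem (by norm_num)) (h36_mem (by norm_num)) chk3
      hr hr1 hX
  | 4 =>
    have e : ((4 : ℕ) : ℤ) - 1 = ((3 : ℕ) : ℤ) := by norm_num
    have ht1 : (tB 23437500 23437500).mem (tt b (((4 : ℕ) : ℤ) - 1)) := by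
      rw [e]; exact tt_box hb 3 (by norm_num) (by norm_num)
    exact cert_level (tt_box hb 4 (by norm_num) (by norm_num)) ht1 (h36_mem (by norm_num)) (h36_mem (by norm_num)) chk4
      hr hr1 hX
  | j + 5 =>
    have e : ((j + 5 : ℕ) : ℤ) - 1 = ((j + 4 : ℕ) : ℤ) := by push_cast; ring
    have hj : ((1 : ℝ) / 8) ^ j ≤ 1 := pow_le_one₀ (by norm_num) (by norm_num)
    have hj0 : (0 : ℝ) ≤ (1 / 8) ^ j := by positivity
    have ht1 : (tB 0 2929688).mem (tt b (((j + 5 : ℕ) : ℤ) - 1)) := by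
      rw [e]
      refine tt_box hb (j + 4) (by push_cast; positivity) ?_
      rw [pow_add]
      norm_num
      linarith
    have ht0 : (tB 0 366211).mem (tt b ((j + 5 : ℕ) : ℤ)) := by
      refine tt_box hb (j + 5) (by push_cast; positivity) ?_
      rw [pow_add]
      norm_num
      linarith
    exact cert_level ht0 ht1 (h36_mem (by push_cast; omega)) (h36_mem (by push_cast; omega)) chk5 hr hr1 hX

end Pool.Agent.Helper37.CP
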