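import Pool.Agent.Helper49.CP.Box

/-! The special pieces: from boxes to `ST_SP`. -/

set_option autoImplicit false

namespace Pool.Agent.Helper37.CP

/-- inverse of the frame map -/
noncomputable def invF (a b : ℝ) (p : ℂ) : ℂ :=
  starRingEnd ℂ (fru a b) * ((((5 / 2) * (a + b) : ℝ) : ℂ) * (p - frc a b))

section
variable {a b : ℝ}

theorem frS_pos (ha : 0 < a) (hb : 0 < b) : 0 < frS a b := by
  unfold frS
  have : 0 < (a * b) ^ 2 := by positivity
  positivity

theorem frS_mul (ha : 0 < a) (hb : 0 < b) : frS a b * (a * b) = ((b - a) ^ 2 + (a * b) ^ 2) / 4 := by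
  have h1 := ha.ne'
  have h2 := hb.ne'
  unfold frS
  field_simp

theorem fru_sq (ha : 0 < a) (hb : 0 < b) : (fru a b).re ^ 2 + (fru a b).im ^ 2 = 1 := by
  have hS := frS_pos ha hb
  have h := frS_mul ha hb
  unfold fru
  simp only
  rw [div_pow, div_pow, ← add_div, div_eq_one_iff_eq (by positivity)]
  nlinarith [h]

theorem fru_conj (ha : 0 < a) (hb : 0 < b) : starRingEnd ℂ (fru a b) * fru a b = 1 := by
  have h := fru_sq ha hb
  apply Complex.ext
  · simp only [Complex.mul_re, Complex.conj_re, Complex.conj_im, Complex.one_re]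
    linarith
  · simp only [Complex.mul_im, Complex.conj_re, Complex.conj_im, Complex.one_im]
    ring

theorem fru_norm (ha : 0 < a) (hb : 0 < b) : ‖fru a b‖ = 1 := by
  have h := fru_sq ha hb
  have h2 : ‖fru a b‖ ^ 2 = 1 := by rw [normSq', h]
  have h3 := norm_nonneg (fru a b)
  nlinarith

theorem frr_mul (ha : 0 < a) (hb : 0 < b) : frr a b * (5 / 2 * (a + b)) = 1 := by
  have : a + b ≠ 0 := by positivity
  unfold frr
  field_simp

theorem frr_pos (ha : 0 < a) (hb : 0 < b) : 0 < frr a b := by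
  unfold frr; positivity

theorem frM_invF (ha : 0 < a) (hb : 0 < b) (p : ℂ) : frM a b (invF a b p) = p := by
  have h1 := fru_conj ha hb
  have h2 : ((frr a b : ℝ) : ℂ) * (((5 / 2) * (a + b) : ℝ) : ℂ) = 1 := by
    rw [← Complex.ofReal_mul, frr_mul ha hb, Complex.ofReal_one]
  unfold frM invF
  linear_combination (p - frc a b) * h2 + ((frr a b : ℝ) : ℂ) * (((5 / 2) * (a + b) : ℝ) : ℂ) * (p - frc a b) * h1

theorem invF_frc (a b : ℝ) : invF a b (frc a b) = 0 := by
  unfold invF; rw [sub_self, mul_zero, mul_zero]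

/-- the tight conditions in the level frame -/
theorem cen_of (ha : 0 < a) (hb : 0 < b) {p q : ℂ} (h : frr a b * ‖q - p‖ ≤ cr p q (frc a b)) :
    ‖invF a b q - invF a b p‖ ≤ cr (invF a b p) (invF a b q) 0 := by
  set α : ℂ := starRingEnd ℂ (fru a b) * (((5 / 2) * (a + b) : ℝ) : ℂ) with hα
  have e : ∀ z, invF a b z = α * z + (-(α * frc a b)) := by
    intro z; unfold invF; rw [hα]; ring
  have hn : ‖α‖ = 5 / 2 * (a + b) := by
    rw [hα, norm_mul, RCLike.norm_conj, fru_norm ha hb, one_mul, Complex.norm_real, Real.norm_of_nonneg (by positivity)]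
  have h0 : (0 : ℂ) = α * frc a b + (-(α * frc a b)) := by ring
  rw [e p, e q]
  conv_rhs => rw [h0]
  rw [cr_lin]
  have h1 : α * q + -(α * frc a b) - (α * p + -(α * frc a b)) = α * (q - p) := by ring
  rw [h1, norm_mul, hn]
  have h2 := frr_mul ha hb
  have h3 : 0 < 5 / 2 * (a + b) := by positivity
  calc 5 / 2 * (a + b) * ‖q - p‖ = (5 / 2 * (a + b)) ^ 2 * (frr a b * ‖q - p‖) := by
        linear_combination (-(5 / 2 * (a + b) * ‖q - p‖)) * h2
    _ ≤ (5 / 2 * (a + b)) ^ 2 * cr p q (frc a b) := mul_le_mul_of_nonneg_left h (by positivity)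

/-- the big circle in the level frame -/
theorem circ_of (ha : 0 < a) (hb : 0 < b) {p : ℂ}
    (h : (5 / 2 * (a + b) * (p.re - (frc a b).re) - (b - a) / 2) ^ 2 +
      (5 / 2 * (a + b) * (p.im - (frc a b).im) - (frS a b - a * b / 2)) ^ 2 = (1 + frS a b) ^ 2) :
    ‖invF a b p - (-(((1 + frS a b : ℝ) : ℂ) - 1))‖ ≤ 1 + frS a b := by
  have hS := frS_pos ha hb
  have h1 := fru_conj ha hb
  have e : invF a b p - (-(((1 + frS a b : ℝ) : ℂ) - 1)) =
      starRingEnd ℂ (fru a b) * ((((5 / 2) * (a + b) : ℝ) : ℂ) * (p - frc a b) + ((frS a b : ℝ) : ℂ) * fru a b) := by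
    unfold invF
    rw [Complex.ofReal_add, Complex.ofReal_one]
    linear_combination (-((frS a b : ℝ) : ℂ)) * h1
  rw [e, norm_mul, RCLike.norm_conj, fru_norm ha hb, one_mul]
  apply le_of_sq_le_sq _ (by positivity)
  rw [normSq', ← h]
  apply le_of_eq
  have e1 : ((((5 / 2) * (a + b) : ℝ) : ℂ) * (p - frc a b) + ((frS a b : ℝ) : ℂ) * fru a b).re =
      5 / 2 * (a + b) * (p.re - (frc a b).re) - (b - a) / 2 := by
    simp only [Complex.add_re, Complex.mul_re, Complex.ofReal_re, Complex.ofReal_im, zero_mul, sub_zero, Complex.sub_re]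
    unfold fru
    simp only
    field_simp
    ring
  have e2 : ((((5 / 2) * (a + b) : ℝ) : ℂ) * (p - frc a b) + ((frS a b : ℝ) : ℂ) * fru a b).im =
      5 / 2 * (a + b) * (p.im - (frc a b).im) - (frS a b - a * b / 2) := by
    simp only [Complex.add_im, Complex.mul_im, Complex.ofReal_re, Complex.ofReal_im, zero_mul, add_zero, Complex.sub_im]
    unfold fru
    simp only
    field_simp
    ring
  rw [e1, e2]

/-- `V 0` lies on the big circle -/
theorem circ_left (ha : 0 < a) (hb : 0 < b) :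
    ‖invF a b (-1) - (-(((1 + frS a b : ℝ) : ℂ) - 1))‖ ≤ 1 + frS a b := by
  apply circ_of ha hb
  have h1 := frr_mul ha hb
  have h2 := frS_mul ha hb
  have e1 : 5 / 2 * (a + b) * ((-1 : ℂ).re - (frc a b).re) = -a := by
    unfold frc
    simp only [Complex.neg_re, Complex.one_re]
    linear_combination (-a) * h1
  have e2 : 5 / 2 * (a + b) * ((-1 : ℂ).im - (frc a b).im) = -1 := by
    unfold frc
    simp only [Complex.neg_im, Complex.one_im]
    linear_combination (-1) * h1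
  rw [e1, e2]
  linear_combination (-1) * h2

/-- `V 1` lies on the big circle -/
theorem circ_right (ha : 0 < a) (hb : 0 < b) {p : ℂ} (hp : p.re = -(3 / 5)) (hp' : p.im = 0) :
    ‖invF a b p - (-(((1 + frS a b : ℝ) : ℂ) - 1))‖ ≤ 1 + frS a b := by
  apply circ_of ha hb
  have h1 := frr_mul ha hb
  have h2 := frS_mul ha hb
  have e1 : 5 / 2 * (a + b) * (p.re - (frc a b).re) = b := by
    unfold frc
    simp only [hp]
    linear_combination (-a) * h1
  have e2 : 5 / 2 * (a + b) * (p.im - (frc a b).im) = -1 := by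
    unfold frc
    simp only [hp']
    linear_combination (-1) * h1
  rw [e1, e2]
  linear_combination (-1) * h2

theorem len_le {p q : ℂ} {r L : ℝ} (hL : 0 ≤ L) (h : (q.re - p.re) ^ 2 + (q.im - p.im) ^ 2 = L ^ 2)
    {c : ℂ} (hr : 0 ≤ r) (hc : cr p q c = r * L) : r * ‖q - p‖ ≤ cr p q c := by
  rw [hc]
  apply mul_le_mul_of_nonneg_left _ hr
  apply le_of_sq_le_sq _ hL
  rw [normSq', Complex.sub_re, Complex.sub_im, h]

theorem wall_l (ha : 0 < a) (hb : 0 < b) {h : ℝ} (hh : 0 ≤ h) {p q : ℂ} (hp : p = wal h (1 / a)) (hq : q = -1) :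
    frr a b * ‖q - p‖ ≤ cr p q (frc a b) := by
  have h1 := ha.ne'
  subst hp hq
  refine len_le (L := h * ((a + 1 / a) / 2)) (by positivity) ?_ (frr_pos ha hb).le ?_
  · unfold wal
    simp only [Complex.neg_re, Complex.one_re, Complex.neg_im, Complex.one_im]
    field_simp
    ring
  · unfold wal cr frc
    simp only [Complex.neg_re, Complex.one_re, Complex.neg_im, Complex.one_im]
    field_simp
    ring

theorem wall_r (ha : 0 < a) (hb : 0 < b) {h : ℝ} (hh : 0 ≤ h) {p q : ℂ} (hp : p.re = -(3 / 5)) (hp' : p.im = 0)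
    (hq : q.re = 3 / 5 * (wal h b).re) (hq' : q.im = 3 / 5 * (wal h b).im) :
    frr a b * ‖q - p‖ ≤ cr p q (frc a b) := by
  have h1 := hb.ne'
  have e := frr_mul ha hb
  refine len_le (L := 3 / 5 * h * ((b + 1 / b) / 2)) (by positivity) ?_ (frr_pos ha hb).le ?_
  · rw [hp, hp', hq, hq']
    unfold wal
    simp only
    field_simp
    ring
  · have e' : a * frr a b = 2 / 5 - b * frr a b := by linarith
    unfold cr
    rw [hp, hp', hq, hq']
    unfold wal frc
    simp only
    rw [e']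
    field_simp
    ring

theorem base_e (ha : 0 < a) (hb : 0 < b) {p q : ℂ} (hp : p = -1) (hq : q.re = -(3 / 5)) (hq' : q.im = 0) :
    frr a b * ‖q - p‖ ≤ cr p q (frc a b) := by
  subst hp
  refine len_le (L := 2 / 5) (by norm_num) ?_ (frr_pos ha hb).le ?_
  · rw [hq, hq', Complex.neg_re, Complex.one_re, Complex.neg_im, Complex.one_im]; norm_num
  · unfold cr frc
    rw [hq, hq', Complex.neg_re, Complex.one_re, Complex.neg_im, Complex.one_im]
    ring

end

/-! ### boxes of the frame -/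

/-- boxes of the frame data -/
structure FB : Type where
  S : FI
  u : CI
  c : CI
  ri : FI

def mkFB (t0 t1 : FI) : FB :=
  let a := t0.inv
  let b := t1
  let s := a.add b
  let r := (FI.rat 2 5).mul s.inv
  let ab := a.mul b
  let S := (((b.sub a).mul (b.sub a)).add (ab.mul ab)).mul ((FI.rat 4 1).mul ab).inv
  ⟨S, ⟨(((b.sub a).half).neg).mul S.inv, ((S.sub ab.half).neg).mul S.inv⟩,
    ⟨(FI.rat (-1) 1).add (a.mul r), r⟩, (FI.rat 5 2).mul s⟩

def okFB (t0 t1 : FI) : Bool :=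
  let a := t0.inv
  let b := t1
  let s := a.add b
  let ab := a.mul b
  let S := (((b.sub a).mul (b.sub a)).add (ab.mul ab)).mul ((FI.rat 4 1).mul ab).inv
  decide (0 < t0.lo) && decide (0 < t1.lo) && decide (0 < s.lo) && decide (0 < ((FI.rat 4 1).mul ab).lo) && decide (0 < S.lo)

theorem mkFB_mem {t0 t1 : FI} {x y : ℝ} (hx : t0.mem x) (hy : t1.mem y) (h : okFB t0 t1 = true) :
    0 < x ∧ 0 < y ∧ (mkFB t0 t1).S.mem (frS (1 / x) y) ∧ (mkFB t0 t1).u.mem (fru (1 / x) y) ∧
      (mkFB t0 t1).c.mem (frc (1 / x) y) ∧ (mkFB t0 t1).ri.mem (5 / 2 * (1 / x + y)) := by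
  unfold okFB at h
  simp only [Bool.and_eq_true, decide_eq_true_eq] at h
  obtain ⟨⟨⟨⟨h1, h2⟩, h3⟩, h4⟩, h5⟩ := h
  have ha : (t0.inv).mem (1 / x) := by rw [one_div]; exact FI.inv_mem hx h1
  have hs := FI.add_mem ha hy
  have hab := FI.mul_mem ha hy
  have r25 : (FI.rat 2 5).mem (2 / 5) := rat_mem' 2 5 (by norm_num) (by norm_num)
  have r52 : (FI.rat 5 2).mem (5 / 2) := rat_mem' 5 2 (by norm_num) (by norm_num)
  have r41 : (FI.rat 4 1).mem 4 := rat_mem' 4 1 (by norm_num) (by norm_num)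
  have rm1 : (FI.rat (-1) 1).mem (-1) := rat_mem' (-1) 1 (by norm_num) (by norm_num)
  have hr : ((FI.rat 2 5).mul ((t0.inv).add t1).inv).mem (frr (1 / x) y) := by
    unfold frr
    rw [div_eq_mul_inv]
    exact FI.mul_mem r25 (FI.inv_mem hs h3)
  have hS : (mkFB t0 t1).S.mem (frS (1 / x) y) := by
    unfold frS
    rw [div_eq_mul_inv]
    refine FI.mul_mem (FI.add_mem ?_ ?_) (FI.inv_mem (FI.mul_mem r41 hab) h4)
    · rw [pow_two]; exact FI.mul_mem (FI.sub_mem hy ha) (FI.sub_mem hy ha)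
    · rw [pow_two]; exact FI.mul_mem hab hab
  have hSi := FI.inv_mem hS h5
  refine ⟨FI.pos_of hx h1, FI.pos_of hy h2, hS, ⟨?_, ?_⟩, ⟨?_, ?_⟩, ?_⟩
  · show ((((t1.sub t0.inv).half).neg).mul (mkFB t0 t1).S.inv).mem (-((y - 1 / x) / 2) / frS (1 / x) y)
    rw [div_eq_mul_inv]
    exact FI.mul_mem (FI.neg_mem (half_mem (FI.sub_mem hy ha))) hSi
  · show ((((mkFB t0 t1).S.sub (t0.inv.mul t1).half).neg).mul (mkFB t0 t1).S.inv).mem
      (-(frS (1 / x) y - 1 / x * y / 2) / frS (1 / x) y)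
    rw [div_eq_mul_inv]
    exact FI.mul_mem (FI.neg_mem (FI.sub_mem hS (half_mem hab))) hSi
  · exact FI.add_mem rm1 (FI.mul_mem ha hr)
  · exact hr
  · exact FI.mul_mem r52 hs

/-- box of `invF p` -/
def invB (f : FB) (p : CI) : CI := f.u.conj.mul (CI.smul f.ri (p.sub f.c))

theorem invB_mem {t0 t1 : FI} {x y : ℝ} (hx : t0.mem x) (hy : t1.mem y) (h : okFB t0 t1 = true) {P : CI} {p : ℂ}
    (hp : P.mem p) : (invB (mkFB t0 t1) P).mem (invF (1 / x) y p) := by
  obtain ⟨_, _, _, h1, h2, h3⟩ := mkFB_mem hx hy h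
  unfold invB invF
  exact CI.mul_mem (CI.conj_mem h1) (CI.smul_mem h3 (CI.sub_mem hp h2))

/-- the environment -/
def mkE (t0 t1 h0 h1 : FI) : Env where
  t := fun l => if l = 0 then t0 else t1
  h := fun l => if l = 0 then h0 else h1
  c := fun _ => zI
  u := fun _ => zI

def chkAll (L : List Nm) (t0 t1 h0 h1 : FI) : Bool :=
  okFB t0 t1 && decide (0 ≤ h0.lo) && decide (0 ≤ h1.lo) &&
  (L ++ [Nm.W 0, Nm.V 0, Nm.V 1, Nm.W 1]).all (fun n => n.ok [0, 1] []) &&
  chkTD (((L ++ [Nm.W 0, Nm.V 0, Nm.V 1, Nm.W 1]).map fun n => invB (mkFB t0 t1) ((mkE t0 t1 h0 h1).pos n)) ++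
    [PPI sI XRI]) L.length (mkFB t0 t1).S

theorem wal_re_im (h t : ℝ) : (wal h t).re = -1 + h * ((1 / t - t) / 2) ∧ (wal h t).im = h := ⟨rfl, rfl⟩

theorem nonneg_of {I : FI} {x : ℝ} (hx : I.mem x) (h : 0 ≤ I.lo) : 0 ≤ x := by
  have h0' : (0 : ℝ) ≤ (I.lo : ℝ) := by exact_mod_cast h
  by_contra hc
  push Not at hc
  have := mul_neg_of_neg_of_pos hc SC_pos
  linarith [hx.1]

theorem bx_app1 {A : List Nm} (f : Nm → CI) (x : CI) {i : ℕ} (hi : i < A.length) : bx (A.map f ++ [x]) i = f A[i] := by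
  unfold bx
  simp [List.getD_eq_getElem?_getD, List.getElem?_append_left, hi]

theorem bx_app2 {A : List Nm} (f : Nm → CI) (x : CI) {i : ℕ} (hi : i = A.length) : bx (A.map f ++ [x]) i = x := by
  subst hi
  unfold bx
  simp [List.getD_eq_getElem?_getD]

theorem get_app1 {A : List Nm} (f : Nm → ℂ) (x : ℂ) {i : ℕ} (hi : i < A.length) (h : i < (A.map f ++ [x]).length) :
    (A.map f ++ [x])[i] = f A[i] := by
  rw [List.getElem_append_left (by simpa using hi)]
  simp

theorem get_app2 {A : List Nm} (f : Nm → ℂ) (x : ℂ) {i : ℕ} (hi : i = A.length) (h : i < (A.map f ++ [x]).length) :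
    (A.map f ++ [x])[i] = x := by
  subst hi
  rw [List.getElem_append_right (by simp)]
  simp

theorem td2_level {b : ℝ} {j : ℤ} {L : List Nm} {t0 t1 h0 h1 : FI} (ht0 : t0.mem (tt b j)) (ht1 : t1.mem (tt b (j - 1)))
    (hh0 : h0.mem (hh j)) (hh1 : h1.mem (hh (j - 1))) (h : chkAll L t0 t1 h0 h1 = true) :
    TD2 (31 / 25) XLc XR1 (1 + frS (1 / tt b j) (tt b (j - 1)))
      (((L ++ [Nm.W 0, Nm.V 0, Nm.V 1, Nm.W 1]).map fun n => invF (1 / tt b j) (tt b (j - 1)) (lpos b j n)) ++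
        [PP (31 / 25) XRc]) := by
  unfold chkAll at h
  simp only [Bool.and_eq_true, decide_eq_true_eq] at h
  obtain ⟨⟨⟨⟨hf, hh0'⟩, hh1'⟩, hok⟩, hchk⟩ := h
  obtain ⟨x0, y0, hS, hu, hc, hri⟩ := mkFB_mem ht0 ht1 hf
  have ha : 0 < 1 / tt b j := by positivity
  have hb : 0 < tt b (j - 1) := y0
  have hE : (mkE t0 t1 h0 h1).Ok (fun l => tt b (j - l)) (fun l => hh (j - l)) [0, 1] [] := by
    unfold okFB at hf
    simp only [Bool.and_eq_true, decide_eq_true_eq] at hf
    refine ⟨?_, ?_, ?_, ?_⟩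
    · intro l hl
      rcases List.mem_cons.1 hl with rfl | hl
      · simp only [sub_zero]
        exact ⟨ht0, hf.1.1.1.1⟩
      · rw [List.mem_singleton] at hl
        subst hl
        exact ⟨ht1, hf.1.1.1.2⟩
    · intro l hl
      rcases List.mem_cons.1 hl with rfl | hl
      · simp only [sub_zero]
        exact hh0
      · rw [List.mem_singleton] at hl
        subst hl
        exact hh1
    · intro l hl
      exact absurd hl List.not_mem_nil
    · intro l hl
      exact absurd hl List.not_mem_nil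
  have hpos : ∀ n ∈ (L ++ [Nm.W 0, Nm.V 0, Nm.V 1, Nm.W 1]), ((mkE t0 t1 h0 h1).pos n).mem (lpos b j n) := by
    intro n hn
    rw [List.all_eq_true] at hok
    exact Env.pos_mem hE (hok n hn)
  have hW0 : lpos b j (.W 0) = wal (hh j) (tt b j) := by
    unfold lpos pos
    simp
  have hV0 : lpos b j (.V 0) = -1 := by
    unfold lpos pos
    simp
  have hV1 : (lpos b j (.V 1)).re = -(3 / 5) ∧ (lpos b j (.V 1)).im = 0 := by
    unfold lpos pos
    constructor
    · rw [Complex.re_ofReal_mul]; norm_num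
    · rw [Complex.im_ofReal_mul]; norm_num
  have hW1 : (lpos b j (.W 1)).re = 3 / 5 * (wal (hh (j - 1)) (tt b (j - 1))).re ∧
      (lpos b j (.W 1)).im = 3 / 5 * (wal (hh (j - 1)) (tt b (j - 1))).im := by
    unfold lpos pos
    constructor
    · rw [Complex.re_ofReal_mul]; norm_num
    · rw [Complex.im_ofReal_mul]; norm_num
  have hinv : 1 / (1 / tt b j) = tt b j := by rw [one_div_one_div]
  -- values at the end of the list
  set G : Nm → ℂ := fun n => invF (1 / tt b j) (tt b (j - 1)) (lpos b j n) with hG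
  have hlen : ((L ++ [Nm.W 0, Nm.V 0, Nm.V 1, Nm.W 1]).map G ++ [PP (31 / 25) XRc]).length = L.length + 5 := by
    simp
  have hget : ∀ (i : ℕ) (hi : i < ((L ++ [Nm.W 0, Nm.V 0, Nm.V 1, Nm.W 1]).map G ++ [PP (31 / 25) XRc]).length) (m : ℕ) (hm : m < 4),
      i = L.length + m → ((L ++ [Nm.W 0, Nm.V 0, Nm.V 1, Nm.W 1]).map G ++ [PP (31 / 25) XRc])[i] =
        G ([Nm.W 0, Nm.V 0, Nm.V 1, Nm.W 1][m]) := by
    intro i hi m hm him
    subst him
    rw [List.getElem_append_left (by simp; omega), List.getElem_map, List.getElem_append_right (by omega)]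
    congr 1
    congr 1
    omega
  refine td2_of_chk (k := L.length) (S := (mkFB t0 t1).S) hlen ?_ ?_ hchk ?_ ?_
  · intro i hi
    rcases Nat.lt_or_ge i (L ++ [Nm.W 0, Nm.V 0, Nm.V 1, Nm.W 1]).length with hi' | hi'
    · rw [bx_app1 _ _ hi', get_app1 _ _ hi' hi]
      exact invB_mem ht0 ht1 hf (hpos _ (List.getElem_mem _))
    · have hi2 : i = (L ++ [Nm.W 0, Nm.V 0, Nm.V 1, Nm.W 1]).length := by
        rw [hlen] at hi
        simp only [List.length_append, List.length_cons, List.length_nil] at hi' ⊢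
        omega
      rw [bx_app2 _ _ hi2, get_app2 _ _ hi2 hi]
      exact PPR_mem
  · have : 1 + frS (1 / tt b j) (tt b (j - 1)) - 1 = frS (1 / tt b j) (tt b (j - 1)) := by ring
    rw [this]
    exact hS
  · intro i hi hki hki2
    have h3 : i = L.length + 0 ∨ i = L.length + 1 ∨ i = L.length + 2 := by omega
    rcases h3 with h3 | h3 | h3
    · rw [hget i (by omega) 0 (by norm_num) h3, hget (i + 1) hi 1 (by norm_num) (by omega)]
      exact cen_of ha hb (wall_l ha hb (nonneg_of hh0 hh0') (by rw [hinv]; exact hW0) hV0)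
    · rw [hget i (by omega) 1 (by norm_num) h3, hget (i + 1) hi 2 (by norm_num) (by omega)]
      exact cen_of ha hb (base_e ha hb hV0 hV1.1 hV1.2)
    · rw [hget i (by omega) 2 (by norm_num) h3, hget (i + 1) hi 3 (by norm_num) (by omega)]
      exact cen_of ha hb (wall_r ha hb (nonneg_of hh1 hh1') hV1.1 hV1.2 hW1.1 hW1.2)
  · intro i hi hki
    rcases hki with h3 | h3
    · rw [hget i hi 1 (by norm_num) h3]
      show ‖invF _ _ (lpos b j (.V 0)) - _‖ ≤ _
      rw [hV0]
      exact circ_left ha hb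
    · rw [hget i hi 2 (by norm_num) h3]
      exact circ_right ha hb hV1.1 hV1.2

/-- the certificate -/
theorem cert_level {b : ℝ} {j : ℤ} {L : List Nm} {t0 t1 h0 h1 : FI} (ht0 : t0.mem (tt b j)) (ht1 : t1.mem (tt b (j - 1)))
    (hh0 : h0.mem (hh j)) (hh1 : h1.mem (hh (j - 1))) (h : chkAll L t0 t1 h0 h1 = true) {r : ℝ} {Xs : List ℝ}
    (hr : 0 < r) (hr1 : r ≤ 1) (hX : TX (31 / 25) XLc XR1 r Xs) :
    Cert ((1 + frS (1 / tt b j) (tt b (j - 1))) / r)
      ((L ++ [Nm.W 0, Nm.V 0, Nm.V 1, Nm.W 1]).map (lpos b j) ++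
        (XRc :: Xs).map fun X => frM (1 / tt b j) (tt b (j - 1)) (PP (31 / 25) X)) := by
  have h1 := td2_level ht0 ht1 hh0 hh1 h
  have h2 := special_cert h1 hX hr hr1
  unfold chkAll at h
  simp only [Bool.and_eq_true, decide_eq_true_eq] at h
  obtain ⟨x0, y0, _⟩ := mkFB_mem ht0 ht1 h.1.1.1.1
  have ha : 0 < 1 / tt b j := by positivity
  have hb : 0 < tt b (j - 1) := y0
  have hne : ((frr (1 / tt b j) (tt b (j - 1)) : ℝ) : ℂ) * fru (1 / tt b j) (tt b (j - 1)) ≠ 0 := by
    apply mul_ne_zero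
    · exact_mod_cast (frr_pos ha hb).ne'
    · intro h0
      have := fru_norm ha hb
      rw [h0, norm_zero] at this
      norm_num at this
  have h3 := cert_lin h2 hne (frc (1 / tt b j) (tt b (j - 1)))
  have e : ∀ z, ((frr (1 / tt b j) (tt b (j - 1)) : ℝ) : ℂ) * fru (1 / tt b j) (tt b (j - 1)) * z +
      frc (1 / tt b j) (tt b (j - 1)) = frM (1 / tt b j) (tt b (j - 1)) z := by
    intro z; unfold frM; ring
  simp only [e] at h3
  rw [List.append_assoc, List.singleton_append, ← List.map_cons, List.map_append, List.map_map, List.map_map] at h3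
  have e2 : (L ++ [Nm.W 0, Nm.V 0, Nm.V 1, Nm.W 1]).map
      ((fun z => frM (1 / tt b j) (tt b (j - 1)) z) ∘ fun n => invF (1 / tt b j) (tt b (j - 1)) (lpos b j n)) =
      (L ++ [Nm.W 0, Nm.V 0, Nm.V 1, Nm.W 1]).map (lpos b j) := by
    apply List.map_congr_left
    intro n _
    exact frM_invF ha hb _
  rw [e2] at h3
  exact h3

end Pool.Agent.Helper37.CP
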